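import Pool.Agent.helper52.HY.Spec

/-! Project hy:, module BRH (existence of the next inverse branch). -/

set_option autoImplicit false

open Complex Metric Set Filter Topology MeasureTheory
open Pool.Agent.helper98.ILF Pool.Agent.helper16.Multibrot

noncomputable section

namespace HY

/-- the inverse of an injective holomorphic function on the disc. -/
theorem BRH_inv (hK : V3.KO0_stmt) {V : Set ℂ} {a : ℂ} {φ : ℂ → ℂ} (h : RM V a φ) :
    ∃ χ : ℂ → ℂ, (∀ z ∈ V, χ z ∈ UD ∧ φ (χ z) = z) ∧ (∀ x ∈ UD, χ (φ x) = x) ∧ DifferentiableOn ℂ χ V := by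
  have hop : IsOpen UD := isOpen_ball
  have h1 : ∀ z ∈ V, Function.invFunOn φ UD z ∈ UD ∧ φ (Function.invFunOn φ UD z) = z := by
    intro z hz
    rw [← h.img] at hz
    obtain ⟨x, hx, hxz⟩ := hz
    exact ⟨Function.invFunOn_mem ⟨x, hx, hxz⟩, Function.invFunOn_eq ⟨x, hx, hxz⟩⟩
  have h2 : ∀ x ∈ UD, Function.invFunOn φ UD (φ x) = x := fun x hx => h.inj.leftInvOn_invFunOn hx
  refine ⟨Function.invFunOn φ UD, h1, h2, ?_⟩
  intro z hz
  obtain ⟨hx, hxz⟩ := h1 z hz
  set x := Function.invFunOn φ UD z with hxdef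
  have hd := hK φ UD hop h.dif h.inj x hx
  have han : AnalyticAt ℂ φ x := h.dif.analyticAt (hop.mem_nhds hx)
  have hst : HasStrictDerivAt φ (deriv φ x) x := han.hasStrictDerivAt
  have hloc := hst.to_localInverse hd
  rw [hxz] at hloc
  have hr : ∀ᶠ w in 𝓝 z, φ (hst.localInverse φ (deriv φ x) x hd w) = w := by
    have := (hst.hasStrictFDerivAt_equiv hd).eventually_right_inverse
    rw [hxz] at this
    exact this
  have hl : hst.localInverse φ (deriv φ x) x hd z = x := by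
    have := (hst.hasStrictFDerivAt_equiv hd).localInverse_apply_image
    rw [hxz] at this
    exact this
  have hcont : ContinuousAt (hst.localInverse φ (deriv φ x) x hd) z := hloc.hasDerivAt.continuousAt
  have hin : ∀ᶠ w in 𝓝 z, hst.localInverse φ (deriv φ x) x hd w ∈ UD := by
    apply hcont.eventually_mem
    rw [hl]
    exact hop.mem_nhds hx
  have heq : Function.invFunOn φ UD =ᶠ[𝓝 z] hst.localInverse φ (deriv φ x) x hd := by
    filter_upwards [hr, hin] with w hw1 hw2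
    have := h2 _ hw2
    rw [hw1] at this
    exact this
  exact (heq.symm.differentiableAt_iff.1 hloc.hasDerivAt.differentiableAt).differentiableWithinAt

theorem BRH (hMOB : MOB_stmt) (hPDC : PDC_stmt) (hLR : MPS.LR_stmt) (hK : V3.KO0_stmt) : BRH_stmt := by
  intro n c V φ ψ b hS y H' hy hval hq hH' hT
  obtain ⟨χ, hχ1, hχ2, hχ3⟩ := BRH_inv hK hS.rm
  have h0 : (0 : ℂ) ∈ UD := mem_ball_self one_pos
  have hy' : H' 0 ∈ UD := hH'.map h0
  set y' : ℂ := H' 0 with hy'def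
  set q : ℝ := ‖y‖ ^ n with hqdef
  have hq0 : 0 < q := by linarith
  have hq1 : q ≤ 1 := by
    have h1 : ‖y‖ < 1 := by simpa [UD] using hy
    exact pow_le_one₀ (norm_nonneg _) h1.le
  have hP := hPDC n c V φ ψ b hS y hy y' hy' hval
  obtain ⟨hA, hTaa, hSa0, hTd, hSd, hTi, hSi, -, hsym, -, -, -⟩ := hMOB y' hy'
  obtain ⟨hA2, hTaa2, -, hTd2, -, -, -, -, -, -, -, -⟩ := hMOB y hy
  have hsub : ball (0 : ℂ) q ⊆ UD := ball_subset_ball hq1
  have hVimg : ∀ x ∈ UD, φ x ∈ V := by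
    intro x hx
    rw [← hS.rm.img]
    exact mem_image_of_mem _ hx
  have hFne : ∀ v ∈ ball (0 : ℂ) q, φ (S y' v) - c ≠ 0 := by
    intro v hv h
    have h1 : φ (S y' v) = φ b := by rw [hS.hbc]; exact sub_eq_zero.1 h
    have h2 : S y' v = b := hS.rm.inj (hA v (hsub hv)).2.1 hS.hb h1
    have h3 : T y' b = v := by rw [← h2]; exact (hA v (hsub hv)).2.2.2
    have h4 : ‖T b y'‖ = ‖v‖ := by rw [← hsym b hS.hb, h3]
    have h5 : ‖v‖ < q := by simpa using hv
    rw [h4] at hP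
    linarith
  have hSmaps : MapsTo (S y') (ball (0 : ℂ) q) UD := fun v hv => (hA v (hsub hv)).2.1
  have hFd : DifferentiableOn ℂ (fun v => φ (S y' v) - c) (ball (0 : ℂ) q) :=
    (hS.rm.dif.comp (hSd.mono hsub) hSmaps).sub_const c
  have hn1 : 1 ≤ n := le_trans (by norm_num) hS.hn
  have hv0 : (φ y) ^ n = φ (S y' 0) - c := by
    rw [hSa0, hval]
    unfold fz
    ring
  obtain ⟨h, hhd, hh0, hhn⟩ := hLR n (ball (0 : ℂ) q) (fun v => φ (S y' v) - c) 0 (φ y) hn1 isOpen_ball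
    (convex_ball _ _) hFd hFne (mem_ball_self hq0) hv0
  have hfh : ∀ v ∈ ball (0 : ℂ) q, fz n c (h v) = φ (S y' v) := by
    intro v hv
    unfold fz
    rw [hhn v hv]
    ring
  have hhV : ∀ v ∈ ball (0 : ℂ) q, h v ∈ V := by
    intro v hv
    apply hS.sub
    show fz n c (h v) ∈ V
    rw [hfh v hv]
    exact hVimg _ (hSmaps hv)
  -- the function g
  have hgd : DifferentiableOn ℂ (fun v => χ (h v)) (ball (0 : ℂ) q) := hχ3.comp hhd hhV
  have hgm : MapsTo (fun v => χ (h v)) (ball (0 : ℂ) q) UD := fun v hv => (hχ1 _ (hhV v hv)).1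
  have hg0 : χ (h 0) = y := by rw [hh0]; exact hχ2 y hy
  have hTg : DifferentiableOn ℂ (fun v => T y (χ (h v))) (ball (0 : ℂ) q) := hTd2.comp hgd hgm
  have hTg0 : T y (χ (h 0)) = 0 := by rw [hg0]; exact hTaa2
  have hTgm : MapsTo (fun v => T y (χ (h v))) (ball (0 : ℂ) q) (closedBall (T y (χ (h 0))) 1) := by
    intro v hv
    rw [hTg0]
    exact ball_subset_closedBall (hA2 _ (hgm hv)).1
  have hsch : ∀ v ∈ ball (0 : ℂ) q, ‖T y (χ (h v))‖ ≤ 1 / q * ‖v‖ := by
    intro v hv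
    have h1 := Complex.dist_le_div_mul_dist_of_mapsTo_ball hTg hTgm hv
    simpa [hTg0] using h1
  have hTball : ∀ x ∈ UD, T y' (H' x) ∈ ball (0 : ℂ) q := by
    intro x hx
    rw [mem_ball_zero_iff]
    have := hT x hx
    linarith
  refine ⟨fun x => χ (h (T y' (H' x))), ⟨?_, ?_, ?_⟩, ?_, ?_, ?_⟩
  · exact hgd.comp (hTd.comp hH'.dif hH'.map) hTball
  · intro x hx x' hx' hxx
    have e1 : φ (H' x) = φ (H' x') := by
      have a1 := hfh _ (hTball x hx)
      have a2 := hfh _ (hTball x' hx')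
      rw [(hA _ (hH'.map hx)).2.2.1] at a1
      rw [(hA _ (hH'.map hx')).2.2.1] at a2
      rw [← a1, ← a2]
      congr 1
      rw [← (hχ1 _ (hhV _ (hTball x hx))).2, ← (hχ1 _ (hhV _ (hTball x' hx'))).2]
      congr 1
    exact hH'.inj hx hx' (hS.rm.inj (hH'.map hx) (hH'.map hx') e1)
  · intro x hx
    exact hgm (hTball x hx)
  · show χ (h (T y' (H' 0))) = y
    rw [← hy'def, hTaa]
    exact hg0
  · intro x hx
    show φ (H' x) = fz n c (φ (χ (h (T y' (H' x)))))
    rw [(hχ1 _ (hhV _ (hTball x hx))).2, hfh _ (hTball x hx), (hA _ (hH'.map hx)).2.2.1]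
  · intro x hx
    refine (hsch _ (hTball x hx)).trans ?_
    have h1 := hT x hx
    have h2 : 1 / q ≤ 4 / 3 := by
      rw [div_le_div_iff₀ hq0 (by norm_num)]
      linarith
    calc 1 / q * ‖T y' (H' x)‖ ≤ 4 / 3 * (1 / 4) := by
          apply mul_le_mul h2 h1 (norm_nonneg _) (by norm_num)
      _ = 1 / 3 := by norm_num

end HY
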